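import Pool.Agent.Helper75.SR.Goals2

/-!
# MP_d08e19_gt, packet SR-GKosTrans: transformation law of the Christoffel symbols
-/

namespace Pool.Agent.Helper45.SR

open scoped ContDiff Topology Manifold
open Set Filter Pool.Agent.Helper75.SR

variable {E : Type} [NormedAddCommGroup E] [NormedSpace ℝ E] [FiniteDimensional ℝ E]

theorem kosTrans {U₁ U₂ : Set E} {G₁ G₂ : E → E →L[ℝ] E →L[ℝ] ℝ} {f : E → E} {z : E}
    (h1 : IsMet U₁ G₁) (h2 : IsMet U₂ G₂) (hz : z ∈ U₁) (hfz : f z ∈ U₂)
    (hf : ContDiffAt ℝ ∞ f z) (hsurj : ∀ u, ∃ v, fderiv ℝ f z v = u)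
    (hG : ∀ᶠ y in 𝓝 z, ∀ u v, G₁ y u v = G₂ (f y) (fderiv ℝ f y u) (fderiv ℝ f y v)) (u v : E) :
    fderiv ℝ f z (kos G₁ z u v) =
      kos G₂ (f z) (fderiv ℝ f z u) (fderiv ℝ f z v) + fderiv ℝ (fderiv ℝ f) z u v := by
  -- the inverse of the differential, as a plain function
  set L := fderiv ℝ f z with hL
  have hinj : Function.Injective L := by
    have : Function.Surjective (L : E →ₗ[ℝ] E) := hsurj
    exact LinearMap.injective_iff_surjective.mpr this
  choose inv hinv using hsurj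
  set D2 := fderiv ℝ (fderiv ℝ f) z with hD2
  set Γ : E → E → E := fun a b => inv (kos G₂ (f z) (L a) (L b) + D2 a b) with hΓ
  have hLΓ : ∀ a b, L (Γ a b) = kos G₂ (f z) (L a) (L b) + D2 a b := fun a b => hinv _
  have hD2symm : ∀ a b, D2 a b = D2 b a := by
    intro a b
    have hs : IsSymmSndFDerivAt ℝ f z := hf.isSymmSndFDerivAt
      (by rw [minSmoothness_of_isRCLikeNormedField]; exact WithTop.coe_le_coe.mpr le_top)
    exact hs a b
  -- value at z
  have hGz : ∀ u v, G₁ z u v = G₂ (f z) (L u) (L v) := hG.self_of_nhds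
  have hfd : HasFDerivAt f L z := (hf.differentiableAt (by simp)).hasFDerivAt
  have hdfd : HasFDerivAt (fderiv ℝ f) D2 z :=
    ((hf.fderiv_right (m := ∞) (by simp)).differentiableAt (by simp)).hasFDerivAt
  have hG2d : HasFDerivAt G₂ (fderiv ℝ G₂ (f z)) (f z) := (h2.differentiableAt hfz).hasFDerivAt
  have hG1d : HasFDerivAt G₁ (fderiv ℝ G₁ z) z := (h1.differentiableAt hz).hasFDerivAt
  have key : ∀ a v w, fderiv ℝ G₁ z a v w =
      fderiv ℝ G₂ (f z) (L a) (L v) (L w) + G₂ (f z) (D2 a v) (L w) + G₂ (f z) (L v) (D2 a w) := by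
    intro a v w
    have e1 : HasFDerivAt (fun y => G₁ y v w) ((fderiv ℝ G₁ z).flip v |>.flip w) z := by
      have := ((hG1d.clm_apply (hasFDerivAt_const v z)).clm_apply (hasFDerivAt_const w z))
      refine this.congr_fderiv ?_
      ext a
      simp
    have hGf : HasFDerivAt (fun y => G₂ (f y)) ((fderiv ℝ G₂ (f z)).comp L) z := hG2d.comp z hfd
    have hv : HasFDerivAt (fun y => fderiv ℝ f y v) (D2.flip v) z := by
      have := hdfd.clm_apply (hasFDerivAt_const v z)
      refine this.congr_fderiv ?_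
      ext a
      simp
    have hw : HasFDerivAt (fun y => fderiv ℝ f y w) (D2.flip w) z := by
      have := hdfd.clm_apply (hasFDerivAt_const w z)
      refine this.congr_fderiv ?_
      ext a
      simp
    have e2 := (hGf.clm_apply hv).clm_apply hw
    have h3 : (fun y => G₁ y v w) =ᶠ[𝓝 z] (fun y => G₂ (f y) (fderiv ℝ f y v) (fderiv ℝ f y w)) := by
      filter_upwards [hG] with y hy using hy v w
    have h4 := congrArg (fun T => T a) (e1.unique (e2.congr_of_eventuallyEq h3))
    simp only [ContinuousLinearMap.flip_apply, add_apply,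
      ContinuousLinearMap.comp_apply] at h4
    rw [h4]
    ring
  have hsym : ∀ a b, Γ a b = Γ b a := by
    intro a b
    simp only [hΓ]
    rw [h2.kos_symm hfz, hD2symm]
  have hcomp : ∀ a v w, fderiv ℝ G₁ z a v w = G₁ z (Γ a v) w + G₁ z v (Γ a w) := by
    intro a v w
    rw [key, hGz, hGz, hLΓ, hLΓ, h2.kos_compat hfz]
    rw [map_add (G₂ (f z)), map_add (G₂ (f z) (L v)), add_apply]
    ring
  have := h1.kos_unique hz Γ hsym hcomp u v
  rw [← this, hLΓ]

theorem gKosTrans : GKosTrans := by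
  intro E _ _ _ U₁ U₂ G₁ G₂ f z h1 h2 hz hfz hf hsurj hG u v
  exact kosTrans h1 h2 hz hfz hf hsurj hG u v

end Pool.Agent.Helper45.SR
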